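import Pool.Agent.Helper23.UT.CountPW
import Pool.Agent.Helper63.PH.CC
import Pool.Agent.Helper63.PH.CD

/-!
# UT: the count of (PH) with explicit constants (regime I, MP_0dbcb7_co)

`q = s`, `k2 = s ^ 4`, hubs have degree more than `s ^ 8`, all threads at least `s ^ 8` and at most `s ^ B` edges. The number
of scales is `(B + 1) * (log s + 1) + 12`, `ρ = 4 * (B + 3)`.
-/

set_option autoImplicit false

open Set
open Pool.Agent.Helper83.OP Pool.Agent.Helper93.HH Pool.Agent.Helper95.HH Pool.Agent.Helper23.PL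
open Pool.Agent.Helper63.PH (BadH Long Wk XX s2)

namespace Pool.Agent.Helper23.UT

theorem big_ineq2 (B s l x : ℕ) (hl : 60 ≤ l) (hs : 2 ^ (l - 1) ≤ s)
    (hx : x ≤ 2 ^ ((B + 1) * l + 12 + 16)) :
    24 * (4 * ((4 * (4 * (B + 3)) + 1) * (1000 * (x + 1))) + 1) < s ^ (4 * (B + 3)) := by
  have h1 : 4 * (4 * (B + 3)) + 1 ≤ 256 * 2 ^ B := by
    have := pow2_ge B
    omega
  refine (big_aux (2 ^ B) (2 ^ ((B + 1) * l + 12 + 16)) x _ Nat.one_le_two_pow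
    Nat.one_le_two_pow h1 hx).trans_le ?_
  refine le_trans ?_ (Nat.pow_le_pow_left hs _)
  rw [← pow_add, ← pow_add, ← pow_mul]
  refine Nat.pow_le_pow_right (by norm_num) ?_
  obtain ⟨t, rfl⟩ : ∃ t, l = 60 + t := ⟨l - 60, by omega⟩
  have e1 : 60 + t - 1 = 59 + t := by omega
  rw [e1]
  have e2 : (59 + t) * (4 * (B + 3)) = 236 * B + 4 * (t * B) + 708 + 12 * t := by ring
  have e3 : (B + 1) * (60 + t) = 60 * B + t * B + 60 + t := by ring
  rw [e2, e3]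
  generalize t * B = z
  omega

/-- **The count, regime I.** -/
theorem count_PH_x : ∃ c : ℕ, ∀ (B : ℕ) (V P Q : Type) [Finite V] [Finite P] [Finite Q]
    (D : HD V P Q) (H : SimpleGraph V) (e0 : Sym2 V) (X : Sym2 V → Sym2 V → Prop) (s : ℕ), D.Ok →
    GOk D → D.U.Nonempty → D.Dr H e0 X → c * (B + 1) ^ 2 ≤ s → D.Kh * D.r = s ^ 8 →
    D.L ≤ s ^ B → Long D (s ^ 8) → ¬ Wk D (c * (B + 1)) (s ^ 4) := by
  obtain ⟨A1, hCC⟩ := Pool.Agent.Helper63.PH.CC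
  obtain ⟨A2, hCD⟩ := Pool.Agent.Helper63.PH.CDx.CD
  obtain ⟨A3, hSP⟩ := Pool.Agent.Helper63.PH.sp
  obtain ⟨A4, hHQ⟩ := Pool.Agent.Helper63.PH.hq
  obtain ⟨A5, hVN⟩ := Pool.Agent.Helper63.PH.vn
  obtain ⟨A, hA⟩ : ∃ A, A = A1 + A2 + A3 + A4 + A5 + 1 := ⟨_, rfl⟩
  have hApos : 1 ≤ A := by omega
  refine ⟨2 ^ 80 * A ^ 2, ?_⟩
  intro B V P Q _ _ _ D H e0 X s hD hG hU hDr hs hKr hL hLo hW
  have hA2 : 1 ≤ A ^ 2 := Nat.one_le_pow _ _ hApos
  have hAA : A ≤ A ^ 2 := Nat.le_self_pow (by norm_num) _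
  have hB2 : B + 1 ≤ (B + 1) ^ 2 := Nat.le_self_pow (by norm_num) _
  -- bounds for `s`
  have hsB : 2 ^ 80 * A ^ 2 * (B + 1) ≤ s := (Nat.mul_le_mul_left _ hB2).trans hs
  have hsA : 2 ^ 80 * A ^ 2 ≤ s := (Nat.le_mul_of_pos_right _ (Nat.succ_pos _)).trans hsB
  have hs80 : 2 ^ 80 ≤ s := (Nat.le_mul_of_pos_right _ hA2).trans hsA
  have hBs : B + 1 ≤ s := (Nat.le_mul_of_pos_left _ (Nat.mul_pos (by positivity) hA2)).trans hsB
  have h280 : (2 : ℕ) ^ 80 = 1208925819614629174706176 := by norm_num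
  have hs1 : 1 ≤ s := by omega
  obtain ⟨l, hl⟩ : ∃ l, l = Nat.log 2 s + 1 := ⟨_, rfl⟩
  have hl80 : 80 ≤ Nat.log 2 s := by
    have := Nat.log_mono_right (b := 2) hs80
    rwa [Nat.log_pow (by norm_num)] at this
  have hl60 : 60 ≤ l := by omega
  have hsl : s < 2 ^ l := by
    rw [hl]
    exact Nat.lt_pow_succ_log_self (by norm_num) s
  have hls : 2 ^ (l - 1) ≤ s := by
    rw [hl, Nat.add_sub_cancel]
    exact Nat.pow_log_le_self 2 (by omega)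
  have hls2 : l ≤ s := by
    have := pow2_ge (l - 1)
    omega
  obtain ⟨J, hJ⟩ : ∃ J, J = (B + 1) * l + 12 := ⟨_, rfl⟩
  have hJs : J ≤ 2 * s ^ 2 := by
    have e1 : (B + 1) * l ≤ s * s := Nat.mul_le_mul hBs hls2
    have e2 : 12 ≤ s * s := by nlinarith
    rw [hJ, sq]
    omega
  -- powers of `s`
  have hs2 : 1 ≤ s ^ 2 := Nat.one_le_pow _ _ hs1
  have hs4 : s ^ 4 = s * (s * s ^ 2) := by ring
  have hs8 : s ^ 8 = s ^ 4 * s ^ 4 := by ring
  have hs4s : s ≤ s ^ 4 := Nat.le_self_pow (by norm_num) _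
  have hs44 : s ^ 4 ≤ s ^ 8 := Nat.pow_le_pow_right hs1 (by norm_num)
  have hAJ : 100 * A ^ 2 * J * s ≤ s ^ 4 := by
    calc 100 * A ^ 2 * J * s ≤ 100 * A ^ 2 * (2 * s ^ 2) * s :=
          Nat.mul_le_mul_right _ (Nat.mul_le_mul_left _ hJs)
      _ = (200 * A ^ 2) * (s * s ^ 2) := by ring
      _ ≤ s * (s * s ^ 2) := by
          refine Nat.mul_le_mul_right _ ?_
          refine le_trans (Nat.mul_le_mul_right _ ?_) hsA
          norm_num
      _ = s ^ 4 := hs4.symm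
  -- the facts
  obtain ⟨k1, hk1⟩ : ∃ k1, k1 = 100 * A * 1 := ⟨_, rfl⟩
  obtain ⟨ρ, hρ⟩ : ∃ ρ, ρ = 4 * (B + 3) := ⟨_, rfl⟩
  obtain ⟨k, hk⟩ : ∃ k, k = 10 ^ 9 * (k1 + 1) * (ρ + 1) := ⟨_, rfl⟩
  have hKk : 10 ^ 6 * (k + 1) ≤ 2 ^ 80 * A ^ 2 * (B + 1) := by
    rw [hk, hk1, hρ]
    have e1 : 4 * (B + 3) + 1 ≤ 13 * (B + 1) := by omega
    have e2 : 100 * A * 1 + 1 ≤ 101 * A := by omega
    have e3 : 10 ^ 9 * (100 * A * 1 + 1) * (4 * (B + 3) + 1) ≤ 10 ^ 9 * (101 * A) * (13 * (B + 1)) :=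
      Nat.mul_le_mul (Nat.mul_le_mul_left _ e2) e1
    have e4 : 1 ≤ A * (B + 1) := Nat.mul_pos hApos (Nat.succ_pos _)
    calc 10 ^ 6 * (10 ^ 9 * (100 * A * 1 + 1) * (4 * (B + 3) + 1) + 1) ≤
          10 ^ 6 * (10 ^ 9 * (101 * A) * (13 * (B + 1)) + A * (B + 1)) :=
          Nat.mul_le_mul_left _ (Nat.add_le_add e3 e4)
      _ = (10 ^ 15 * 1313 + 10 ^ 6) * (A * (B + 1)) := by ring
      _ ≤ 2 ^ 80 * (A ^ 2 * (B + 1)) :=
          Nat.mul_le_mul (by norm_num) (Nat.mul_le_mul_right _ hAA)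
      _ = _ := by ring
  have hpin : ∀ p, 10 ≤ (D.w p).length := by
    intro p
    have := hLo.w p
    omega
  have hB : BadH D k (s ^ 4) := Pool.Agent.Helper63.PH.badH_of_wk hD hpin hW hKk
  have hk9 : 10 ^ 9 * (k1 + 1) ≤ k := by
    rw [hk]
    exact Nat.le_mul_of_pos_right _ (by omega)
  have hk4 : 10 ^ 4 ≤ k := by omega
  have hk6 : 10 ^ 6 * (k1 + 1) ≤ k := by omega
  have hk6s : 10 ^ 6 * (k1 + 1) * (ρ + 1) ≤ k := by
    rw [hk]
    exact Nat.mul_le_mul_right _ (Nat.mul_le_mul_right _ (by norm_num))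
  have hk9s : 10 ^ 9 * (ρ + 1) ≤ k := by
    rw [hk]
    exact Nat.mul_le_mul_right _ (Nat.le_mul_of_pos_right _ (Nat.succ_pos _))
  have hδ3 : 3 ≤ s ^ 8 := by omega
  have hk2 : 1 ≤ s ^ 4 := by omega
  have h8q : 8 * s ≤ s ^ 4 := by
    rw [hs4]
    calc 8 * s = s * 8 := Nat.mul_comm _ _
      _ ≤ s * (s * s ^ 2) := by
          refine Nat.mul_le_mul_left _ ?_
          exact le_trans (by omega : 8 ≤ s) (Nat.le_mul_of_pos_right _ hs2)
  have hF : ∀ p, min (e1 D p) (Rb D (s ^ 4) (D.x p)) < cap D := fun p =>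
    Pool.Agent.Helper63.PH.finH hD hLo hB hδ3 hk2 hk4 p
  -- scales
  obtain ⟨g, hg⟩ : ∃ g, g = Nat.log 2 (D.Kh * D.r * (s ^ 4 + 1) + 2) + 12 := ⟨_, rfl⟩
  have hgl : g + 1 ≤ 26 * l := by
    have e1 : D.Kh * D.r * (s ^ 4 + 1) + 2 < 2 ^ (13 * l) := by
      rw [hKr]
      have e2 : s ^ 8 * (s ^ 4 + 1) + 2 ≤ s ^ 13 := by
        have e3 : s ^ 13 = s ^ 8 * (s ^ 4 * s) := by ring
        have e4 : s ^ 4 + 1 + 2 ≤ s ^ 4 * s := by
          calc s ^ 4 + 1 + 2 ≤ s ^ 4 * 4 := by omega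
            _ ≤ s ^ 4 * s := Nat.mul_le_mul_left _ (by omega)
        rw [e3]
        calc s ^ 8 * (s ^ 4 + 1) + 2 ≤ s ^ 8 * (s ^ 4 + 1) + s ^ 8 * 2 := by omega
          _ = s ^ 8 * (s ^ 4 + 1 + 2) := by ring
          _ ≤ _ := Nat.mul_le_mul_left _ e4
      refine e2.trans_lt ?_
      rw [Nat.mul_comm 13 l, pow_mul]
      exact Nat.pow_lt_pow_left hsl (by norm_num)
    have e5 : Nat.log 2 (D.Kh * D.r * (s ^ 4 + 1) + 2) < 13 * l :=
      Nat.log_lt_of_lt_pow (by omega) e1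
    omega
  have hLg : 64 * (D.L * (g + 1)) ≤ 2 ^ J := by
    have e1 : D.L ≤ 2 ^ (B * l) := by
      refine hL.trans ?_
      rw [Nat.mul_comm B l, pow_mul]
      exact Nat.pow_le_pow_left hsl.le _
    have e2 : 64 * (g + 1) ≤ 2 ^ (l + 12) := by
      have e3 : l + 1 ≤ 2 ^ l := pow2_ge l
      have e4 : 2 ^ (l + 12) = 4096 * 2 ^ l := by
        rw [pow_add]
        norm_num
        ring
      rw [e4]
      omega
    calc 64 * (D.L * (g + 1)) = D.L * (64 * (g + 1)) := by ring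
      _ ≤ 2 ^ (B * l) * 2 ^ (l + 12) := Nat.mul_le_mul e1 e2
      _ = 2 ^ J := by
          rw [← pow_add, hJ]
          congr 1
          ring
  have hL2 : 2 ≤ D.L := hD.r_pos.trans hD.r_le
  have hLgg : D.L * (g + 1) = D.L * g + D.L := by ring
  have hsg : ∀ p, sg D (s ^ 4) p < 2 ^ J := by
    intro p
    have h5 := Pool.Agent.Helper63.PH.gr1 hD hLo hB hδ3 hk2 hk4 p
    rw [← hg] at h5
    omega
  have hrho : ∀ p, T5 D k (s ^ 4) p → rho D (s ^ 4) p < 2 ^ J := by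
    intro p hp
    have h5 := Pool.Agent.Helper63.PH.gr2 hD hLo hB hδ3 hk2 hk4 p hp
    rw [← hg] at h5
    omega
  have hwq : ∀ t, (D.wq t).length < 2 ^ J := by
    intro t
    have h5 := hD.wq_le t
    omega
  have hbig : ∀ x, x ≤ 2 ^ (J + 16) →
      24 * (4 * ((4 * ρ + 1) * (1000 * (x + 1))) + 1) < s ^ ρ := by
    intro x hx
    rw [hρ]
    rw [hJ] at hx
    exact big_ineq2 B s l x hl60 hls hx
  have hpow : ∀ j < J, ∀ i ≤ 16, 2 ^ (j + i) ≤ 2 ^ (J + 16) := fun j hj i hi =>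
    Nat.pow_le_pow_right (by norm_num) (by omega)
  have hbig' : ∀ x y, y ≤ 1000 * (x + 1) → x ≤ 2 ^ (J + 16) →
      24 * (4 * ((4 * ρ + 1) * y) + 1) < s ^ ρ := by
    intro x y hy hx
    refine lt_of_le_of_lt ?_ (hbig x hx)
    have := Nat.mul_le_mul_left (4 * ρ + 1) hy
    omega
  -- the bound for the branch vertices
  have hvn : (Vb D).ncard ≤ A5 * s * Nat.card P := by
    refine hVN V P Q D H e0 X k (s ^ 4) (s ^ 8) ρ s (2 ^ J) hD hDr hLo hB hδ3 (by omega) h8q hk9s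
      ?_ ?_ ?_
    · intro y hy
      have h5 := (Pool.Agent.Helper63.PH.gr hD hLo hB hδ3 hk2 hk4 y hy).2
      rw [← hg] at h5
      omega
    · intro y hy
      have h5 := (Pool.Agent.Helper63.PH.gr hD hLo hB hδ3 hk2 hk4 y hy).1
      unfold cap
      omega
    · exact hbig _ (Nat.pow_le_pow_right (by norm_num) (by omega))
  -- the sum
  refine count_gen (k := k) (k1 := k1) (k2 := s ^ 4) A 1 s J (XX D k1 (s ^ 4)) hD hU
    hApos le_rfl hs1 (by omega) (le_of_eq hk1.symm) ?_ ?_ hsg hrho hwq ?_ ?_ ?_ ?_ ?_ ?_ ?_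
  · rw [hKr]
    refine le_trans ?_ (hAJ.trans hs44)
    exact Nat.mul_le_mul_right _ (Nat.mul_le_mul_right _ (Nat.mul_le_mul_left _ hAA))
  · exact hAJ.trans (Nat.le_succ _)
  · intro j _
    refine (hCC V P Q D H e0 X k k1 (s ^ 4) j (s ^ 8) hD hDr hLo (le_of_eq hKr) hB hF hk6).trans ?_
    rw [Nat.one_mul]
    exact Nat.mul_le_mul_right _ (by omega)
  · intro j _
    refine (hCD V P Q D H e0 X k k1 (s ^ 4) j (s ^ 8) hD hDr hLo (le_of_eq hKr) hB hF hk6).trans ?_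
    rw [Nat.one_mul]
    exact Nat.mul_le_mul_right _ (by omega)
  · intro j hj
    have h5 := hSP V P Q D H e0 X k k1 (s ^ 4) j ρ s hD hDr hB hF (le_of_eq hk.symm) (by omega)
      (hbig' (2 ^ (j + 14)) _ (by omega) (hpow j hj 14 (by norm_num)))
    refine h5.trans (Nat.add_le_add_right (Nat.mul_le_mul_right _ (by omega)) _)
  · intro j hj
    have h5 := hHQ V P Q D H e0 X k k1 (s ^ 4) j ρ s hD hG hU hDr hB hk6s (by omega)
      (hbig' (2 ^ (j + 1)) _ (by omega) (hpow j hj 1 (by norm_num)))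
    exact h5.trans (Nat.mul_le_mul_right _ (by omega))
  · refine hvn.trans (Nat.mul_le_mul_right _ (Nat.mul_le_mul_right _ (by omega)))
  · exact xx_le hD hB hF (by omega)
  · exact t5lg hD hB (by omega)

end Pool.Agent.Helper23.UT
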