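import Pool.Agent.Helper63.PH.SP
import Pool.Agent.Helper63.PH.T5

/-!
# UT: two injections (MP_0dbcb7_co)
-/

set_option autoImplicit false

open Set
open Pool.Agent.Helper83.OP Pool.Agent.Helper93.HH Pool.Agent.Helper23.PL
open Pool.Agent.Helper63.PH (BadH Long Wk XX xx_inj)

namespace Pool.Agent.Helper23.UT

section

variable {V P Q : Type} [Finite V] [Finite P] [Finite Q] {D : HD V P Q} {k k1 k2 : ℕ}

/-- `T5` pins without `Lg2` -/
theorem t5lg (hD : D.Ok) (hB : BadH D k k2) (hk : 100 * (k1 + 1) ≤ k) :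
    {p | T5 D k k2 p ∧ ¬ Lg2 D k1 k2 p}.ncard ≤
      {p | Lg D k1 k2 p ∧ (¬ T5 D k k2 p ∨ Lg2 D k1 k2 p)}.ncard := by
  refine Set.ncard_le_ncard_of_injOn (pt1 D) ?_ ?_ (Set.toFinite _)
  · rintro p ⟨h1, h2⟩
    exact Pool.Agent.Helper63.PH.t5_A hD hB hk h1 h2
  · rintro p ⟨h1, h2⟩ p' ⟨h1', h2'⟩ hq
    exact Pool.Agent.Helper63.PH.t5_inj hD hB (by omega) h1 h1' hq

theorem xx_le (hD : D.Ok) (hB : BadH D k k2)
    (hF : ∀ p, min (e1 D p) (Rb D k2 (D.x p)) < cap D) (hk : 100 ≤ k) :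
    (XX D k1 k2).ncard ≤ {p | Lg D k1 k2 p}.ncard := by
  refine Set.ncard_le_ncard_of_injOn (pt1 D) ?_ ?_ (Set.toFinite _)
  · rintro p ⟨-, -, h3⟩
    exact h3
  · intro p h p' h' hq
    exact xx_inj hD hB hF hk h h' hq

end

end Pool.Agent.Helper23.UT
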