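import Pool.Agent.Helper23.UT.Sum
import Pool.Agent.Helper23.UT.Inj
import Pool.Agent.Helper23.UT.CC
import Pool.Agent.Helper23.UT.CD
import Pool.Agent.Helper63.PH.VN
import Pool.Agent.Helper63.PH.Red
import Pool.Agent.Helper63.PH.SP
import Pool.Agent.Helper63.PH.HQ

/-!
# UT: the count with polylogarithmic parameters (regime II, MP_0dbcb7_co)

`D.L ≤ 2 ^ s`; the number of scales is `2 * s`, the growth factor is `q = 2`, `ρ = 4 * s + 60`.
-/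

set_option autoImplicit false

open Set
open Pool.Agent.Helper83.OP Pool.Agent.Helper93.HH Pool.Agent.Helper95.HH Pool.Agent.Helper23.PL
open Pool.Agent.Helper63.PH (BadH Long Wk XX s2)

namespace Pool.Agent.Helper23.UT

theorem pow2_ge (n : ℕ) : n + 1 ≤ 2 ^ n := Nat.lt_two_pow_self

theorem big_aux (a b x y : ℕ) (ha : 1 ≤ a) (hb : 1 ≤ b) (hy : y ≤ 256 * a) (hx : x ≤ b) :
    24 * (4 * (y * (1000 * (x + 1))) + 1) < 2 ^ 26 * (a * b) := by
  have h2 : 1000 * (x + 1) ≤ 2000 * b := by omega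
  have h3 : y * (1000 * (x + 1)) ≤ (256 * a) * (2000 * b) := Nat.mul_le_mul hy h2
  have h4 : (256 * a) * (2000 * b) = 512000 * (a * b) := by ring
  have h5 : 1 ≤ a * b := Nat.mul_pos ha hb
  rw [h4] at h3
  generalize y * (1000 * (x + 1)) = z at *
  generalize a * b = w at *
  omega

theorem big_ineq (s x : ℕ) (hx : x ≤ 2 ^ (2 * s + 16)) :
    24 * (4 * ((4 * (4 * s + 60) + 1) * (1000 * (x + 1))) + 1) < 2 ^ (4 * s + 60) := by
  have h1 : 4 * (4 * s + 60) + 1 ≤ 256 * 2 ^ s := by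
    have := pow2_ge s
    omega
  refine (big_aux (2 ^ s) (2 ^ (2 * s + 16)) x _ Nat.one_le_two_pow Nat.one_le_two_pow h1
    hx).trans_le ?_
  rw [← pow_add, ← pow_add]
  exact Nat.pow_le_pow_right (by norm_num) (by omega)

/-- **The count, regime II.** -/
theorem count_PW : ∃ c : ℕ, ∀ (V P Q : Type) [Finite V] [Finite P] [Finite Q] (D : HD V P Q)
    (H : SimpleGraph V) (e0 : Sym2 V) (X : Sym2 V → Sym2 V → Prop) (s K k2 : ℕ), D.Ok →
    GOk D → D.U.Nonempty → D.Dr H e0 X → 1 ≤ s → D.L ≤ 2 ^ s →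
    64 * (Nat.log 2 (D.Kh * D.r * (k2 + 1) + 2) + 13) ≤ 2 ^ s →
    Long D 3 → (∀ p, 10 ≤ (D.w p).length) → c * s ≤ D.Kh * D.r → c * s ≤ k2 →
    c * s * (D.Kh * D.r * (k2 + 1)) ≤ K → ¬ Wk D K k2 := by
  obtain ⟨A1, hCC⟩ := CCx.CC
  obtain ⟨A2, hCD⟩ := CDx.CD
  obtain ⟨A3, hSP⟩ := Pool.Agent.Helper63.PH.sp
  obtain ⟨A4, hHQ⟩ := Pool.Agent.Helper63.PH.hq
  obtain ⟨A5, hVN⟩ := Pool.Agent.Helper63.PH.vn
  obtain ⟨A, hA⟩ : ∃ A, A = A1 + A2 + A3 + A4 + A5 + 1 := ⟨_, rfl⟩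
  have hApos : 1 ≤ A := by omega
  refine ⟨10 ^ 24 * A ^ 2, ?_⟩
  intro V P Q _ _ _ D H e0 X s K k2 hD hG hU hDr hs hL hlog hLo hpin h0 h2 hK hW
  obtain ⟨k0, hk0⟩ : ∃ k0, k0 = D.Kh * D.r := ⟨_, rfl⟩
  have hA2 : 1 ≤ A ^ 2 := Nat.one_le_pow _ _ hApos
  have hAA : A ≤ A ^ 2 := Nat.le_self_pow (by norm_num) _
  obtain ⟨k1, hk1⟩ : ∃ k1, k1 = 100 * A * (k0 * (k2 + 1)) := ⟨_, rfl⟩
  obtain ⟨ρ, hρ⟩ : ∃ ρ, ρ = 4 * s + 60 := ⟨_, rfl⟩
  obtain ⟨k, hk⟩ : ∃ k, k = 10 ^ 9 * (k1 + 1) * (ρ + 1) := ⟨_, rfl⟩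
  have hcs : 10 ^ 24 * A ^ 2 ≤ 10 ^ 24 * A ^ 2 * s := Nat.le_mul_of_pos_right _ hs
  have hk0pos : 1 ≤ k0 := by
    rw [hk0]
    refine le_trans ?_ h0
    refine le_trans ?_ hcs
    omega
  have hk0k2 : 1 ≤ k0 * (k2 + 1) := Nat.mul_pos hk0pos (Nat.succ_pos _)
  have hk1pos : 1 ≤ k1 := by
    rw [hk1]
    exact Nat.mul_pos (by omega) hk0k2
  -- the facts
  have hKk : 10 ^ 6 * (k + 1) ≤ K := by
    refine le_trans ?_ hK
    rw [← hk0, hk, hk1, hρ]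
    have e1 : 4 * s + 60 + 1 ≤ 65 * s := by omega
    have e2 : 100 * A * (k0 * (k2 + 1)) + 1 ≤ 101 * A * (k0 * (k2 + 1)) := by
      have : 1 ≤ A * (k0 * (k2 + 1)) := Nat.mul_pos hApos hk0k2
      have e : 101 * A * (k0 * (k2 + 1)) = 100 * A * (k0 * (k2 + 1)) + A * (k0 * (k2 + 1)) := by ring
      omega
    have e3 : 10 ^ 9 * (100 * A * (k0 * (k2 + 1)) + 1) * (4 * s + 60 + 1) ≤
        10 ^ 9 * (101 * A * (k0 * (k2 + 1))) * (65 * s) :=
      Nat.mul_le_mul (Nat.mul_le_mul_left _ e2) e1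
    have e4 : 1 ≤ A * (k0 * (k2 + 1)) * s := Nat.mul_pos (Nat.mul_pos hApos hk0k2) hs
    calc 10 ^ 6 * (10 ^ 9 * (100 * A * (k0 * (k2 + 1)) + 1) * (4 * s + 60 + 1) + 1) ≤
          10 ^ 6 * (10 ^ 9 * (101 * A * (k0 * (k2 + 1))) * (65 * s) + A * (k0 * (k2 + 1)) * s) :=
          Nat.mul_le_mul_left _ (Nat.add_le_add e3 e4)
      _ = (10 ^ 15 * 6565 + 10 ^ 6) * (A * (k0 * (k2 + 1)) * s) := by ring
      _ ≤ 10 ^ 24 * (A ^ 2 * (k0 * (k2 + 1)) * s) := by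
          refine Nat.mul_le_mul (by norm_num) ?_
          exact Nat.mul_le_mul_right _ (Nat.mul_le_mul_right _ hAA)
      _ = _ := by ring
  have hB : BadH D k k2 := Pool.Agent.Helper63.PH.badH_of_wk hD hpin hW hKk
  have hk9 : 10 ^ 9 * (k1 + 1) ≤ k := by
    rw [hk]
    exact Nat.le_mul_of_pos_right _ (by omega)
  have hk4 : 10 ^ 4 ≤ k := by omega
  have hk6 : 10 ^ 6 * (k1 + 1) ≤ k := by omega
  have hk6s : 10 ^ 6 * (k1 + 1) * (ρ + 1) ≤ k := by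
    rw [hk]
    exact Nat.mul_le_mul_right _ (Nat.mul_le_mul_right _ (by norm_num))
  have hk9s : 10 ^ 9 * (ρ + 1) ≤ k := by
    rw [hk]
    exact Nat.mul_le_mul_right _ (Nat.le_mul_of_pos_right _ (Nat.succ_pos _))
  have hk2 : 16 ≤ k2 := by
    refine le_trans ?_ h2
    refine le_trans ?_ hcs
    omega
  have hF : ∀ p, min (e1 D p) (Rb D k2 (D.x p)) < cap D := fun p =>
    Pool.Agent.Helper63.PH.finH hD hLo hB le_rfl (by omega) hk4 p
  -- scales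
  obtain ⟨g, hg⟩ : ∃ g, g = Nat.log 2 (D.Kh * D.r * (k2 + 1) + 2) + 12 := ⟨_, rfl⟩
  have hg1 : 64 * (g + 1) ≤ 2 ^ s := by
    rw [hg]
    exact hlog
  have h2s : 2 ^ (2 * s) = 2 ^ s * 2 ^ s := by
    rw [← pow_add]
    congr 1
    omega
  have hLg : 64 * (D.L * (g + 1)) ≤ 2 ^ (2 * s) := by
    rw [h2s]
    calc 64 * (D.L * (g + 1)) = D.L * (64 * (g + 1)) := by ring
      _ ≤ 2 ^ s * 2 ^ s := Nat.mul_le_mul hL hg1
  have hL2 : 2 ≤ D.L := hD.r_pos.trans hD.r_le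
  have hLgg : D.L * (g + 1) = D.L * g + D.L := by ring
  have hsg : ∀ p, sg D k2 p < 2 ^ (2 * s) := by
    intro p
    have h5 := Pool.Agent.Helper63.PH.gr1 hD hLo hB le_rfl (by omega) hk4 p
    rw [← hg] at h5
    omega
  have hrho : ∀ p, T5 D k k2 p → rho D k2 p < 2 ^ (2 * s) := by
    intro p hp
    have h5 := Pool.Agent.Helper63.PH.gr2 hD hLo hB le_rfl (by omega) hk4 p hp
    rw [← hg] at h5
    omega
  have hwq : ∀ t, (D.wq t).length < 2 ^ (2 * s) := by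
    intro t
    have h5 := hD.wq_le t
    omega
  have hbig : ∀ x, x ≤ 2 ^ (2 * s + 16) →
      24 * (4 * ((4 * ρ + 1) * (1000 * (x + 1))) + 1) < 2 ^ ρ := by
    intro x hx
    rw [hρ]
    exact big_ineq s x hx
  have hpow : ∀ j < 2 * s, ∀ i ≤ 16, 2 ^ (j + i) ≤ 2 ^ (2 * s + 16) := fun j hj i hi =>
    Nat.pow_le_pow_right (by norm_num) (by omega)
  have hbig' : ∀ x y, y ≤ 1000 * (x + 1) → x ≤ 2 ^ (2 * s + 16) →
      24 * (4 * ((4 * ρ + 1) * y) + 1) < 2 ^ ρ := by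
    intro x y hy hx
    refine lt_of_le_of_lt ?_ (hbig x hx)
    have := Nat.mul_le_mul_left (4 * ρ + 1) hy
    omega
  -- the bound for the branch vertices
  have hvn : (Vb D).ncard ≤ A5 * 2 * Nat.card P := by
    refine hVN V P Q D H e0 X k k2 3 ρ 2 (2 ^ (2 * s)) hD hDr hLo hB le_rfl le_rfl hk2 hk9s ?_ ?_ ?_
    · intro y hy
      have h5 := (Pool.Agent.Helper63.PH.gr hD hLo hB le_rfl (by omega) hk4 y hy).2
      rw [← hg] at h5
      omega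
    · intro y hy
      have h5 := (Pool.Agent.Helper63.PH.gr hD hLo hB le_rfl (by omega) hk4 y hy).1
      unfold cap
      omega
    · exact hbig _ (Nat.pow_le_pow_right (by norm_num) (by omega))
  -- the sum
  refine count_gen (k := k) (k1 := k1) (k2 := k2) A (k0 * (k2 + 1)) 2 (2 * s) (XX D k1 k2) hD hU
    hApos hk0k2 (by norm_num) (by omega) (le_of_eq hk1.symm) ?_ ?_ hsg hrho hwq ?_ ?_ ?_ ?_ ?_ ?_ ?_
  · refine le_trans ?_ h0
    calc 100 * A * (2 * s) * 2 = 400 * (A * s) := by ring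
      _ ≤ 10 ^ 24 * (A ^ 2 * s) := Nat.mul_le_mul (by norm_num) (Nat.mul_le_mul_right _ hAA)
      _ = _ := by ring
  · refine le_trans ?_ (h2.trans (Nat.le_succ _))
    calc 100 * A ^ 2 * (2 * s) * 2 = 400 * (A ^ 2 * s) := by ring
      _ ≤ 10 ^ 24 * (A ^ 2 * s) := Nat.mul_le_mul_right _ (by norm_num)
      _ = _ := by ring
  · intro j _
    refine (hCC V P Q D H e0 X k k1 k2 j hD hDr hB hF hk6).trans ?_
    refine Nat.mul_le_mul (by omega) (Nat.add_le_add_right (Nat.mul_le_mul_left _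
      (Nat.add_le_add_right (Nat.mul_le_mul_right _ (Nat.mul_le_mul_right _ ?_)) _)) _)
    rw [← hk0]
    exact Nat.le_mul_of_pos_right _ (Nat.succ_pos _)
  · intro j _
    refine (hCD V P Q D H e0 X k k1 k2 j hD hDr hB hF hk6).trans ?_
    rw [← hk0]
    exact Nat.mul_le_mul_right _ (by omega)
  · intro j hj
    have h5 := hSP V P Q D H e0 X k k1 k2 j ρ 2 hD hDr hB hF (le_of_eq hk.symm) le_rfl
      (hbig' (2 ^ (j + 14)) _ (by omega) (hpow j hj 14 (by norm_num)))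
    refine h5.trans (Nat.add_le_add_right (Nat.mul_le_mul_right _ (by omega)) _)
  · intro j hj
    have h5 := hHQ V P Q D H e0 X k k1 k2 j ρ 2 hD hG hU hDr hB hk6s le_rfl
      (hbig' (2 ^ (j + 1)) _ (by omega) (hpow j hj 1 (by norm_num)))
    exact h5.trans (Nat.mul_le_mul_right _ (by omega))
  · refine hvn.trans (Nat.mul_le_mul_right _ (Nat.mul_le_mul_right _ (by omega)))
  · exact xx_le hD hB hF (by omega)
  · exact t5lg hD hB (by omega)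

end Pool.Agent.Helper23.UT
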