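import Pool.Agent.Helper23.PL.Defs

/-!
# UT: the sum over the scales, with free parameters (MP_0dbcb7_co; adapted from Helper72/PL/CountPL)

`A` = constant of the bounds at one scale, `F` = factor in front of `2 ^ j * |UL j|`, `q` = growth factor, `s` = number of
scales.
-/

set_option autoImplicit false

open Set
open Pool.Agent.Helper83.OP Pool.Agent.Helper93.HH Pool.Agent.Helper23.PL

namespace Pool.Agent.Helper23.UT

/-! ## numbers -/

theorem numeric (A F q s K0 K1 K2 M u nb w X Y l Z p t : ℝ) (hA : 1 ≤ A) (hF : 1 ≤ F)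
    (hq : 1 ≤ q) (hs : 1 ≤ s) (hM : 0 < M) (hu0 : 0 ≤ u) (hw0 : 0 ≤ w) (hnb0 : 0 ≤ nb)
    (hp0 : 0 ≤ p) (ht0 : 0 ≤ t)
    (h1 : 100 * A * F ≤ K1) (h0 : 100 * A * s * q ≤ K0) (h2 : 100 * A ^ 2 * s * q ≤ K2)
    (hu : K0 * u ≤ M) (hw : K1 * w ≤ 2 * M) (hnb : nb ≤ A * q * p)
    (hX : K2 * X ≤ A * (K2 * (F * w + s * u) + s * nb))
    (hY : K2 * Y ≤ A * (K2 * (F * w + s * u) + s * nb))
    (hl : l ≤ 2 * (X + Y))
    (hZ : K2 * Z ≤ A * (K2 * (w + s * q * u) + s * nb) + K2 * l) (hp : p ≤ l + Z)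
    (ht : t ≤ A * (w + s * q * u)) (hMpq : M = p + 2 * t) : False := by
  have hK2 : 0 < K2 := by
    have : 0 < 100 * A ^ 2 * s * q := by positivity
    linarith
  have hK0 : 0 < K0 := by
    have : 0 < 100 * A * s * q := by positivity
    linarith
  have hK1 : 0 < K1 := by
    have : 0 < 100 * A * F := by positivity
    linarith
  have hA0 : 0 < A := by linarith
  have hs0 : 0 < s := by linarith
  have hq0 : 0 < q := by linarith
  have hF0 : 0 < F := by linarith
  have hpM : p ≤ M := by linarith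
  -- G = F w + s q u
  obtain ⟨G, hG⟩ : ∃ G, G = F * w + s * q * u := ⟨_, rfl⟩
  have g1 : F * w + s * u ≤ G := by
    have : s * u ≤ s * q * u := by
      calc s * u = s * 1 * u := by ring
        _ ≤ s * q * u := by
          apply mul_le_mul_of_nonneg_right _ hu0
          exact mul_le_mul_of_nonneg_left hq hs0.le
    linarith
  have g2 : w + s * q * u ≤ G := by
    have : w ≤ F * w := by nlinarith
    linarith
  have eX : K2 * X ≤ A * (K2 * G + s * nb) := by
    refine hX.trans (mul_le_mul_of_nonneg_left ?_ hA0.le)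
    have := mul_le_mul_of_nonneg_left g1 hK2.le
    linarith
  have eY : K2 * Y ≤ A * (K2 * G + s * nb) := by
    refine hY.trans (mul_le_mul_of_nonneg_left ?_ hA0.le)
    have := mul_le_mul_of_nonneg_left g1 hK2.le
    linarith
  have el : K2 * l ≤ 4 * (A * (K2 * G + s * nb)) := by
    have := mul_le_mul_of_nonneg_left hl hK2.le
    have e : K2 * (2 * (X + Y)) = 2 * (K2 * X) + 2 * (K2 * Y) := by ring
    linarith
  have eZ : K2 * Z ≤ A * (K2 * G + s * nb) + K2 * l := by
    refine hZ.trans ?_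
    have h5 : A * (K2 * (w + s * q * u) + s * nb) ≤ A * (K2 * G + s * nb) := by
      refine mul_le_mul_of_nonneg_left ?_ hA0.le
      have := mul_le_mul_of_nonneg_left g2 hK2.le
      linarith
    linarith
  have ep : K2 * p ≤ 9 * (A * (K2 * G + s * nb)) := by
    have := mul_le_mul_of_nonneg_left hp hK2.le
    have e : K2 * (l + Z) = K2 * l + K2 * Z := by ring
    linarith
  have et : K2 * t ≤ A * (K2 * G + s * nb) := by
    have h5 : t ≤ A * G := ht.trans (mul_le_mul_of_nonneg_left g2 hA0.le)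
    have h6 := mul_le_mul_of_nonneg_left h5 hK2.le
    have h7 : 0 ≤ A * (s * nb) := by positivity
    have e : A * (K2 * G + s * nb) = K2 * (A * G) + A * (s * nb) := by ring
    linarith
  have eM : K2 * M ≤ 11 * (A * (K2 * G + s * nb)) := by
    have e : K2 * M = K2 * p + 2 * (K2 * t) := by rw [hMpq]; ring
    linarith
  -- the three terms
  have t1 : A * (K2 * (F * w)) ≤ K2 * M / 50 := by
    have h5 : 100 * (A * (F * w)) ≤ 2 * M := by
      calc 100 * (A * (F * w)) = (100 * A * F) * w := by ring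
        _ ≤ K1 * w := mul_le_mul_of_nonneg_right h1 hw0
        _ ≤ 2 * M := hw
    have h6 := mul_le_mul_of_nonneg_left h5 hK2.le
    have e : A * (K2 * (F * w)) = K2 * (100 * (A * (F * w))) / 100 := by ring
    rw [e]
    linarith
  have t2 : A * (K2 * (s * q * u)) ≤ K2 * M / 100 := by
    have h5 : 100 * (A * (s * q * u)) ≤ M := by
      calc 100 * (A * (s * q * u)) = (100 * A * s * q) * u := by ring
        _ ≤ K0 * u := mul_le_mul_of_nonneg_right h0 hu0
        _ ≤ M := hu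
    have h6 := mul_le_mul_of_nonneg_left h5 hK2.le
    have e : A * (K2 * (s * q * u)) = K2 * (100 * (A * (s * q * u))) / 100 := by ring
    rw [e]
    linarith
  have t3 : A * (s * nb) ≤ K2 * M / 100 := by
    have h5 : nb ≤ A * q * M := hnb.trans (mul_le_mul_of_nonneg_left hpM (by positivity))
    have h6 : A * (s * nb) ≤ A * (s * (A * q * M)) := by
      refine mul_le_mul_of_nonneg_left (mul_le_mul_of_nonneg_left h5 hs0.le) hA0.le
    have h7 : (100 * A ^ 2 * s * q) * M ≤ K2 * M := mul_le_mul_of_nonneg_right h2 hM.le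
    have e : A * (s * (A * q * M)) = (100 * A ^ 2 * s * q) * M / 100 := by ring
    rw [e] at h6
    linarith
  have e : A * (K2 * G + s * nb) = A * (K2 * (F * w)) + A * (K2 * (s * q * u)) + A * (s * nb) := by
    rw [hG]; ring
  rw [e] at eM
  have hpos : 0 < K2 * M := by positivity
  linarith

/-! ## counting -/

theorem ncard_le_sum {P : Type} [Finite P] (S : Set P) (f : P → ℕ) (m : ℕ)
    (h : ∀ p ∈ S, f p < m) : S.ncard ≤ ∑ j ∈ Finset.range m, {p | p ∈ S ∧ f p = j}.ncard := by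
  classical
  have := Fintype.ofFinite P
  rw [Set.ncard_eq_toFinset_card' S,
    Finset.card_eq_sum_card_fiberwise (f := f) (t := Finset.range m)
      (fun p hp => by
        have hp' : p ∈ S := by simpa using hp
        simpa using h p hp')]
  refine Finset.sum_le_sum fun j _ => ?_
  rw [Set.ncard_eq_toFinset_card']
  refine Finset.card_le_card fun p hp => ?_
  rw [Finset.mem_filter, Set.mem_toFinset] at hp
  rw [Set.mem_toFinset]
  exact hp

theorem sum_le_ncard {P : Type} [Finite P] (S : Set P) (f : P → ℕ) (m : ℕ) :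
    ∑ j ∈ Finset.range m, {p | p ∈ S ∧ f p = j}.ncard ≤ S.ncard := by
  classical
  have := Fintype.ofFinite P
  have h1 : ∀ j ∈ Finset.range m, {p | p ∈ S ∧ f p = j}.ncard =
      (S.toFinset.filter fun p => f p = j).card := by
    intro j _
    rw [Set.ncard_eq_toFinset_card']
    congr 1
    ext p
    simp
  rw [Finset.sum_congr rfl h1, Set.ncard_eq_toFinset_card' S,
    ← Finset.card_biUnion (fun i _ j _ hij => by
      rw [Function.onFun, Finset.disjoint_left]
      intro p hp hp'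
      rw [Finset.mem_filter] at hp hp'
      exact hij (hp.2.symm.trans hp'.2))]
  refine Finset.card_le_card fun p hp => ?_
  rw [Finset.mem_biUnion] at hp
  obtain ⟨j, -, hj⟩ := hp
  exact (Finset.mem_filter.1 hj).1

theorem card_sum {V S : Type} [Finite S] (Us : Finset V) (f : S → V)
    (h : ∀ s, f s ∈ Us) : ∑ a ∈ Us, {s | f s = a}.ncard = Nat.card S := by
  classical
  have := Fintype.ofFinite S
  rw [Nat.card_eq_fintype_card, ← Finset.card_univ,
    Finset.card_eq_sum_card_fiberwise (f := f) (s := Finset.univ) (t := Us) (fun s _ => h s)]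
  refine Finset.sum_congr rfl fun a _ => ?_
  rw [Set.ncard_eq_toFinset_card']
  congr 1
  ext s
  simp

/-- the geometric series -/
theorem geo (k1 d s : ℕ) :
    k1 * ∑ j ∈ Finset.range s, (if k1 * 2 ^ j < d then 2 ^ j else 0) ≤ 2 * d := by
  induction s with
  | zero => simp
  | succ s ih =>
    by_cases h : k1 * 2 ^ s < d
    · have h1 : ∑ j ∈ Finset.range (s + 1), (if k1 * 2 ^ j < d then 2 ^ j else 0) ≤ 2 * 2 ^ s := by
        calc ∑ j ∈ Finset.range (s + 1), (if k1 * 2 ^ j < d then 2 ^ j else 0) ≤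
              ∑ j ∈ Finset.range (s + 1), 2 ^ j := by
              refine Finset.sum_le_sum fun j _ => ?_
              split_ifs
              · exact le_rfl
              · exact Nat.zero_le _
          _ = 2 ^ (s + 1) - 1 := by
            rw [Nat.geomSum_eq (le_refl 2)]
            simp
          _ ≤ 2 * 2 ^ s := by
            rw [pow_succ]
            omega
      calc k1 * ∑ j ∈ Finset.range (s + 1), (if k1 * 2 ^ j < d then 2 ^ j else 0) ≤
            k1 * (2 * 2 ^ s) := Nat.mul_le_mul_left _ h1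
        _ = 2 * (k1 * 2 ^ s) := by ring
        _ ≤ 2 * d := Nat.mul_le_mul_left _ h.le
    · rw [Finset.sum_range_succ, if_neg h, Nat.add_zero]
      exact ih

section

variable {V P Q : Type} [Finite V] [Finite P] [Finite Q] {D : HD V P Q} {k k1 k2 : ℕ}

/-- **The sum.** -/
theorem count_gen (A F q s : ℕ) (Xs : Set P) (hD : D.Ok) (hU : D.U.Nonempty) (hA : 1 ≤ A)
    (hF : 1 ≤ F) (hq : 1 ≤ q) (hs : 1 ≤ s) (h1 : 100 * A * F ≤ k1)
    (h0 : 100 * A * s * q ≤ D.Kh * D.r) (h2 : 100 * A ^ 2 * s * q ≤ k2 + 1)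
    (hsg : ∀ p, sg D k2 p < 2 ^ s) (hrho : ∀ p, T5 D k k2 p → rho D k2 p < 2 ^ s)
    (hwq : ∀ t, (D.wq t).length < 2 ^ s)
    (hCC : ∀ j < s, (k2 + 1) *
      {p | Lg D k1 k2 p ∧ ¬ T5 D k k2 p ∧ Nat.log 2 (sg D k2 p) = j}.ncard ≤
        A * ((k2 + 1) * (F * 2 ^ j * (UL D k1 j).ncard + D.U.ncard) + (Vb D).ncard))
    (hCD : ∀ j < s, (k2 + 1) *
      {p | T5 D k k2 p ∧ Lg2 D k1 k2 p ∧ Nat.log 2 (rho D k2 p) = j}.ncard ≤
        A * ((k2 + 1) * (F * 2 ^ j * (UL D k1 j).ncard + D.U.ncard) + (Vb D).ncard))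
    (hsp : ∀ j < s, (k2 + 1) * {p | ¬ Lg D k1 k2 p ∧ Nat.log 2 (sg D k2 p) = j}.ncard ≤
      A * ((k2 + 1) * (2 ^ j * (UL D k1 j).ncard + q * D.U.ncard) + (Vb D).ncard) +
        (k2 + 1) * {p | p ∈ Xs ∧ Nat.log 2 (sg D k2 p) = j}.ncard)
    (hhq : ∀ j < s, {t | Nat.log 2 (D.wq t).length = j}.ncard ≤
      A * (2 ^ j * (UL D k1 j).ncard + q * D.U.ncard))
    (hvn : (Vb D).ncard ≤ A * q * Nat.card P)
    (hxx : Xs.ncard ≤ {p | Lg D k1 k2 p}.ncard)
    (ht5 : {p | T5 D k k2 p ∧ ¬ Lg2 D k1 k2 p}.ncard ≤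
      {p | Lg D k1 k2 p ∧ (¬ T5 D k k2 p ∨ Lg2 D k1 k2 p)}.ncard) : False := by
  classical
  have := Fintype.ofFinite V
  have := Fintype.ofFinite P
  have := Fintype.ofFinite Q
  obtain ⟨k0, hk0⟩ : ∃ k0, k0 = D.Kh * D.r := ⟨_, rfl⟩
  rw [← hk0] at h0
  -- the sum of the degrees
  obtain ⟨Us, hUs⟩ : ∃ Us : Finset V, ∀ a, a ∈ Us ↔ a ∈ D.U := ⟨D.U.toFinset, fun a => by simp⟩
  have hUc : D.U.ncard = Us.card := by
    rw [← Set.ncard_coe_finset]
    congr 1
    ext a
    exact (hUs a).symm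
  obtain ⟨M, hM⟩ : ∃ M, M = ∑ a ∈ Us, deg D.G a := ⟨_, rfl⟩
  have hMpq : M = Nat.card P + 2 * Nat.card Q := by
    rw [hM, Finset.sum_congr rfl (fun a ha => hD.hub_sum a ((hUs a).1 ha)),
      Finset.sum_add_distrib, Finset.sum_add_distrib,
      card_sum Us D.hub (fun p => (hUs _).2 (hD.hub_U p)),
      card_sum Us D.ha (fun q => (hUs _).2 (hD.ha_U q)),
      card_sum Us D.hb (fun q => (hUs _).2 (hD.hb_U q))]
    ring
  have hMu : k0 * D.U.ncard ≤ M := by
    rw [hM, hUc, mul_comm, ← smul_eq_mul, ← Finset.sum_const]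
    refine Finset.sum_le_sum fun a ha => ?_
    rw [hk0]
    exact (hD.hub_deg a ((hUs a).1 ha)).le
  have hMpos : 1 ≤ M := by
    obtain ⟨a, ha⟩ := hU
    have e1 := hD.hub_deg a ha
    have e2 : deg D.G a ≤ M := by
      rw [hM]
      exact Finset.single_le_sum (f := fun a => deg D.G a) (fun _ _ => Nat.zero_le _) ((hUs a).2 ha)
    omega
  obtain ⟨w, hw⟩ : ∃ w, w = ∑ j ∈ Finset.range s, 2 ^ j * (UL D k1 j).ncard := ⟨_, rfl⟩
  have hwM : k1 * w ≤ 2 * M := by
    have e1 : ∀ j, (UL D k1 j).ncard = ∑ a ∈ Us, if k1 * 2 ^ j < deg D.G a then 1 else 0 := by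
      intro j
      rw [← Finset.card_filter, ← Set.ncard_coe_finset]
      congr 1
      ext a
      rw [Finset.mem_coe, Finset.mem_filter, hUs]
      rfl
    have e2 : w = ∑ a ∈ Us, ∑ j ∈ Finset.range s, (if k1 * 2 ^ j < deg D.G a then 2 ^ j else 0) := by
      rw [hw, Finset.sum_comm]
      refine Finset.sum_congr rfl fun j _ => ?_
      rw [e1, Finset.mul_sum]
      refine Finset.sum_congr rfl fun a _ => ?_
      split_ifs <;> simp
    rw [e2, Finset.mul_sum, hM, Finset.mul_sum]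
    exact Finset.sum_le_sum fun a _ => geo _ _ _
  -- sums of the bounds
  have hsum : ∀ (f g : ℕ → ℕ) (c : ℕ), (∀ j < s, c * f j ≤ g j) →
      c * ∑ j ∈ Finset.range s, f j ≤ ∑ j ∈ Finset.range s, g j := by
    intro f g c h
    rw [Finset.mul_sum]
    exact Finset.sum_le_sum fun j hj => h j (Finset.mem_range.1 hj)
  have hlog : ∀ x, x < 2 ^ s → Nat.log 2 x < s := by
    intro x hx
    by_cases h : x = 0
    · rw [h, Nat.log_zero_right]
      exact hs
    · exact Nat.log_lt_of_lt_pow h hx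
  obtain ⟨SX, hSX⟩ : ∃ SX : Set P, SX = {p | Lg D k1 k2 p ∧ ¬ T5 D k k2 p} := ⟨_, rfl⟩
  obtain ⟨SY, hSY⟩ : ∃ SY : Set P, SY = {p | T5 D k k2 p ∧ Lg2 D k1 k2 p} := ⟨_, rfl⟩
  obtain ⟨SZ, hSZ⟩ : ∃ SZ : Set P, SZ = {p | ¬ Lg D k1 k2 p} := ⟨_, rfl⟩
  obtain ⟨SL, hSL⟩ : ∃ SL : Set P, SL = {p | Lg D k1 k2 p} := ⟨_, rfl⟩
  have sumF : ∑ j ∈ Finset.range s, A * ((k2 + 1) * (F * 2 ^ j * (UL D k1 j).ncard + D.U.ncard) +
      (Vb D).ncard) = A * ((k2 + 1) * (F * w + s * D.U.ncard) + s * (Vb D).ncard) := by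
    have e1 : ∑ j ∈ Finset.range s, F * 2 ^ j * (UL D k1 j).ncard = F * w := by
      rw [hw, Finset.mul_sum]
      refine Finset.sum_congr rfl fun j _ => ?_
      ring
    rw [← Finset.mul_sum, Finset.sum_add_distrib, ← Finset.mul_sum, Finset.sum_add_distrib,
      Finset.sum_const, Finset.sum_const, Finset.card_range, smul_eq_mul, smul_eq_mul, e1]
  have bX : (k2 + 1) * SX.ncard ≤
      A * ((k2 + 1) * (F * w + s * D.U.ncard) + s * (Vb D).ncard) := by
    rw [← sumF]
    refine (Nat.mul_le_mul_left _ (ncard_le_sum SX (fun p => Nat.log 2 (sg D k2 p)) s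
      (fun p _ => hlog _ (hsg p)))).trans (hsum _ _ _ fun j hj => ?_)
    refine le_trans (le_of_eq ?_) (hCC j hj)
    congr 2
    ext p
    rw [hSX]
    exact and_assoc
  have bY : (k2 + 1) * SY.ncard ≤
      A * ((k2 + 1) * (F * w + s * D.U.ncard) + s * (Vb D).ncard) := by
    rw [← sumF]
    refine (Nat.mul_le_mul_left _ (ncard_le_sum SY (fun p => Nat.log 2 (rho D k2 p)) s
      (fun p hp => hlog _ (hrho p (by rw [hSY] at hp; exact hp.1))))).trans
      (hsum _ _ _ fun j hj => ?_)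
    refine le_trans (le_of_eq ?_) (hCD j hj)
    congr 2
    ext p
    rw [hSY]
    exact and_assoc
  have bZ : (k2 + 1) * SZ.ncard ≤
      A * ((k2 + 1) * (w + s * q * D.U.ncard) + s * (Vb D).ncard) + (k2 + 1) * SL.ncard := by
    have e0 : ∑ j ∈ Finset.range s, (A * ((k2 + 1) * (2 ^ j * (UL D k1 j).ncard +
        q * D.U.ncard) + (Vb D).ncard) +
        (k2 + 1) * {p | p ∈ Xs ∧ Nat.log 2 (sg D k2 p) = j}.ncard) =
        A * ((k2 + 1) * (w + s * q * D.U.ncard) + s * (Vb D).ncard) +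
        (k2 + 1) * ∑ j ∈ Finset.range s, {p | p ∈ Xs ∧ Nat.log 2 (sg D k2 p) = j}.ncard := by
      rw [hw, Finset.sum_add_distrib, ← Finset.mul_sum, Finset.sum_add_distrib, ← Finset.mul_sum,
        Finset.sum_add_distrib, Finset.sum_const, Finset.sum_const, Finset.card_range,
        smul_eq_mul, smul_eq_mul, ← Finset.mul_sum]
      ring
    have e1 : (k2 + 1) * SZ.ncard ≤ ∑ j ∈ Finset.range s, (A * ((k2 + 1) *
        (2 ^ j * (UL D k1 j).ncard + q * D.U.ncard) + (Vb D).ncard) +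
        (k2 + 1) * {p | p ∈ Xs ∧ Nat.log 2 (sg D k2 p) = j}.ncard) := by
      refine (Nat.mul_le_mul_left _ (ncard_le_sum SZ (fun p => Nat.log 2 (sg D k2 p)) s
        (fun p _ => hlog _ (hsg p)))).trans (hsum _ _ _ fun j hj => ?_)
      refine le_trans (le_of_eq ?_) (hsp j hj)
      rw [hSZ]
      rfl
    rw [e0] at e1
    refine e1.trans (Nat.add_le_add_left (Nat.mul_le_mul_left _ ?_) _)
    rw [hSL]
    exact (sum_le_ncard Xs _ s).trans hxx
  have bt : Nat.card Q ≤ A * (w + s * q * D.U.ncard) := by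
    have e0 : ∑ j ∈ Finset.range s, A * (2 ^ j * (UL D k1 j).ncard + q * D.U.ncard) =
        A * (w + s * q * D.U.ncard) := by
      rw [hw, ← Finset.mul_sum, Finset.sum_add_distrib, Finset.sum_const, Finset.card_range,
        smul_eq_mul, mul_assoc]
    rw [← e0, ← Set.ncard_univ]
    refine (ncard_le_sum Set.univ (fun t => Nat.log 2 (D.wq t).length) s
      (fun t _ => hlog _ (hwq t))).trans (Finset.sum_le_sum fun j hj => ?_)
    refine le_trans (le_of_eq ?_) (hhq j (Finset.mem_range.1 hj))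
    congr 1
    ext t
    simp
  have bl : SL.ncard ≤ 2 * (SX.ncard + SY.ncard) := by
    have e1 : SL ⊆ SX ∪ SY ∪ {p | T5 D k k2 p ∧ ¬ Lg2 D k1 k2 p} := by
      intro p hp
      rw [hSL] at hp
      rw [hSX, hSY]
      by_cases hT : T5 D k k2 p
      · by_cases hL : Lg2 D k1 k2 p
        · exact Or.inl (Or.inr ⟨hT, hL⟩)
        · exact Or.inr ⟨hT, hL⟩
      · exact Or.inl (Or.inl ⟨hp, hT⟩)
    have e2 : {p | Lg D k1 k2 p ∧ (¬ T5 D k k2 p ∨ Lg2 D k1 k2 p)} ⊆ SX ∪ SY := by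
      rintro p ⟨hp, hp'⟩
      rw [hSX, hSY]
      by_cases hT : T5 D k k2 p
      · exact Or.inr ⟨hT, hp'.resolve_left (not_not.2 hT)⟩
      · exact Or.inl ⟨hp, hT⟩
    have e3 := Set.ncard_le_ncard e1 (Set.toFinite _)
    have e4 := Set.ncard_le_ncard e2 (Set.toFinite _)
    have e5 := Set.ncard_union_le (SX ∪ SY) {p | T5 D k k2 p ∧ ¬ Lg2 D k1 k2 p}
    have e6 := Set.ncard_union_le SX SY
    omega
  have bp : Nat.card P ≤ SL.ncard + SZ.ncard := by
    rw [← Set.ncard_univ]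
    have : (Set.univ : Set P) ⊆ SL ∪ SZ := fun p _ => by
      rw [hSL, hSZ]
      by_cases h : Lg D k1 k2 p
      · exact Or.inl h
      · exact Or.inr h
    exact (Set.ncard_le_ncard this (Set.toFinite _)).trans (Set.ncard_union_le _ _)
  refine numeric (A : ℝ) F q s k0 k1 (k2 + 1 : ℕ) M D.U.ncard (Vb D).ncard w SX.ncard SY.ncard
    SL.ncard SZ.ncard (Nat.card P) (Nat.card Q) (by exact_mod_cast hA) (by exact_mod_cast hF)
    (by exact_mod_cast hq) (by exact_mod_cast hs) (by exact_mod_cast hMpos) (Nat.cast_nonneg _)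
    (Nat.cast_nonneg _) (Nat.cast_nonneg _) (Nat.cast_nonneg _) (Nat.cast_nonneg _)
    (by exact_mod_cast h1) (by exact_mod_cast h0) (by exact_mod_cast h2) (by exact_mod_cast hMu)
    (by exact_mod_cast hwM) (by exact_mod_cast hvn) (by exact_mod_cast bX) (by exact_mod_cast bY)
    (by exact_mod_cast bl) (by exact_mod_cast bZ) (by exact_mod_cast bp) (by exact_mod_cast bt)
    (by exact_mod_cast hMpq)

end

end Pool.Agent.Helper23.UT
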